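import Pool.Agent.H85.PS.Targets

/-!
Module TYG of the project PS (logarithms of close integers) on `MP_3cf473_nt`.
-/

set_option autoImplicit false

namespace Pool.Agent.H79.PS

open Polynomial Finset Pool.Agent.H85.PS

/-- The integers in `ℚ`. -/
abbrev SZ : Subring ℚ := (Int.castRingHom ℚ).range

lemma mem_SZ {x : ℚ} : x ∈ SZ ↔ ∃ z : ℤ, x = z := by
  constructor
  · rintro ⟨z, rfl⟩
    exact ⟨z, by simp⟩
  · rintro ⟨z, rfl⟩
    exact ⟨z, by simp⟩

lemma typ_iff {q : ℤ} {t : ℕ} {g : PowerSeries ℚ} :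
    Typ q t g ↔ ∀ i, (q : ℚ) ^ i * (Nat.lcmUpto i : ℚ) ^ t * PowerSeries.coeff i g ∈ SZ := by
  unfold Typ
  simp only [mem_SZ]

lemma typ_mono {q : ℤ} {t t' : ℕ} {g : PowerSeries ℚ} (h : Typ q t g) (ht : t ≤ t') :
    Typ q t' g := by
  rw [typ_iff] at h ⊢
  intro i
  have h1 : (q : ℚ) ^ i * (Nat.lcmUpto i : ℚ) ^ t' * PowerSeries.coeff i g =
      (Nat.lcmUpto i : ℚ) ^ (t' - t) *
        ((q : ℚ) ^ i * (Nat.lcmUpto i : ℚ) ^ t * PowerSeries.coeff i g) := by
    have h2 : (Nat.lcmUpto i : ℚ) ^ t' = (Nat.lcmUpto i : ℚ) ^ (t' - t) *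
        (Nat.lcmUpto i : ℚ) ^ t := by
      rw [← pow_add, Nat.sub_add_cancel ht]
    rw [h2]; ring
  rw [h1]
  exact mul_mem (pow_mem (natCast_mem _ _) _) (h i)

lemma typ_sum {ι : Type} {q : ℤ} {t : ℕ} (s : Finset ι) (g : ι → PowerSeries ℚ)
    (h : ∀ i ∈ s, Typ q t (g i)) : Typ q t (∑ i ∈ s, g i) := by
  rw [typ_iff]
  intro i
  rw [map_sum, Finset.mul_sum]
  exact sum_mem fun j hj => typ_iff.1 (h j hj) i

lemma typ_int (q : ℤ) (z : ℤ) : Typ q 0 (PowerSeries.C (z : ℚ)) := by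
  rw [typ_iff]
  intro i
  rw [pow_zero, mul_one, PowerSeries.coeff_C]
  refine mul_mem (pow_mem (intCast_mem _ _) _) ?_
  split_ifs
  · exact intCast_mem _ _
  · exact zero_mem _

lemma typ_pow (hM : T_TYM) {q : ℤ} {t : ℕ} {g : PowerSeries ℚ} (h : Typ q t g) (r : ℕ) :
    Typ q (r * t) (g ^ r) := by
  induction r with
  | zero =>
    have := typ_int q 1
    simpa using this
  | succ r ih =>
    have h1 := hM q (r * t) t (g ^ r) g ih h
    rw [pow_succ, Nat.succ_mul]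
    exact h1

lemma typ_prod (hM : T_TYM) {ι : Type} {q : ℤ} (s : Finset ι) (t : ι → ℕ)
    (g : ι → PowerSeries ℚ) (h : ∀ i ∈ s, Typ q (t i) (g i)) :
    Typ q (∑ i ∈ s, t i) (∏ i ∈ s, g i) := by
  classical
  induction s using Finset.induction_on with
  | empty =>
    have := typ_int q 1
    simpa using this
  | insert a s ha ih =>
    rw [Finset.sum_insert ha, Finset.prod_insert ha]
    exact hM q _ _ _ _ (h a (Finset.mem_insert_self _ _))
      (ih fun i hi => h i (Finset.mem_insert_of_mem hi))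

/-- The Taylor coefficients of an integral polynomial at `1 / N`. -/
lemma taylor_int (p : ℚ[X]) (m N : ℕ) (hN : 1 ≤ N) (hm : p.natDegree ≤ m)
    (hp : ∀ j, ∃ z : ℤ, p.coeff j = z) (i : ℕ) :
    (N : ℚ) ^ m * (taylor (1 / (N : ℚ)) p).coeff i ∈ SZ := by
  have hN0 : (N : ℚ) ≠ 0 := by positivity
  rw [taylor_coeff, hasseDeriv_apply, Polynomial.sum_def, eval_finsetSum, Finset.mul_sum]
  refine sum_mem fun n hn => ?_
  rw [eval_monomial]
  have hnm : n ≤ m := (le_natDegree_of_mem_supp n hn).trans hm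
  have h1 : (N : ℚ) ^ m * ((n.choose i : ℚ) * p.coeff n * (1 / (N : ℚ)) ^ (n - i)) =
      (N : ℚ) ^ (m - (n - i)) * ((n.choose i : ℚ) * p.coeff n) := by
    have h2 : (N : ℚ) ^ m = (N : ℚ) ^ (m - (n - i)) * (N : ℚ) ^ (n - i) := by
      rw [← pow_add, Nat.sub_add_cancel (by omega)]
    rw [h2, one_div, inv_pow]
    field_simp
  rw [h1]
  exact mul_mem (pow_mem (natCast_mem _ _) _) (mul_mem (natCast_mem _ _) (mem_SZ.2 (hp n)))

theorem pf_TYG (h1 : T_TYM) (h2 : T_TYL) : T_TYG := by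
  classical
  intro s D m N b A hN hA hint i e'
  set q : ℤ := ∏ k, ((N : ℤ) + b k) with hq
  have hN0 : (0 : ℚ) < N := by exact_mod_cast hN
  -- the local logarithms
  have hlam : ∀ k, Typ q 1 (lam (b k : ℚ) (1 / N)) := by
    intro k
    unfold lam
    refine h2 q _ ⟨b k * N * ∏ j ∈ univ.erase k, ((N : ℤ) + b j), ?_⟩
    have h3 : (q : ℚ) = ((N : ℚ) + b k) * ∏ j ∈ univ.erase k, ((N : ℚ) + b j) := by
      rw [hq, ← Finset.mul_prod_erase _ _ (Finset.mem_univ k)]
      push_cast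
      rfl
    rw [h3]
    push_cast
    have h4 : (0 : ℚ) < (N : ℚ) + b k := by positivity
    have h5 : (1 : ℚ) + b k * (1 / N) = (N + b k) / N := by field_simp
    rw [h5]
    field_simp
  have hG : Typ q D (PowerSeries.C ((N : ℚ) ^ m) *
      GG (fun k => (b k : ℚ)) (1 / N) D A e') := by
    unfold GG
    rw [Finset.mul_sum]
    refine typ_sum _ _ fun e he => ?_
    have hsum : ∑ k, e k ≤ D := by
      unfold II at he
      exact (Finset.mem_filter.1 he).2
    have hT : Typ q 0 (PowerSeries.C ((N : ℚ) ^ m) *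
        ((taylor (1 / (N : ℚ)) (A e) : ℚ[X]) : PowerSeries ℚ)) := by
      rw [typ_iff]
      intro j
      rw [pow_zero, mul_one, PowerSeries.coeff_C_mul, Polynomial.coeff_coe]
      exact mul_mem (pow_mem (intCast_mem _ _) _) (taylor_int _ _ _ hN (hA e) (hint e) j)
    have hC : Typ q 0 (∏ k, ((e k).choose (e' k) : PowerSeries ℚ)) := by
      have h3 : (∏ k, ((e k).choose (e' k) : PowerSeries ℚ)) =
          PowerSeries.C (((∏ k, (e k).choose (e' k) : ℕ) : ℤ) : ℚ) := by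
        push_cast
        rw [map_prod]
        simp
      rw [h3]
      exact typ_int _ _
    have hL : Typ q D (∏ k, lam (b k : ℚ) (1 / N) ^ (e k - e' k)) := by
      refine typ_mono (typ_prod h1 Finset.univ (fun k => (e k - e' k) * 1) _
        fun k _ => typ_pow h1 (hlam k) _) ?_
      refine le_trans (Finset.sum_le_sum fun k _ => ?_) hsum
      rw [mul_one]
      exact Nat.sub_le _ _
    have h3 := h1 q _ _ _ _ (h1 q _ _ _ _ hT hC) hL
    rw [zero_add, zero_add] at h3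
    rw [← mul_assoc, ← mul_assoc]
    exact h3
  obtain ⟨z, hz⟩ := hG i
  refine ⟨z, ?_⟩
  rw [PowerSeries.coeff_C_mul] at hz
  rw [← hz]
  unfold Gc
  rw [hq]
  push_cast
  ring

end Pool.Agent.H79.PS
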